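import Pool.Agent.GenBP.Main

/-!
# The lower bound for proper programs in terms of the number of elements
-/

namespace Pool.Agent.GenBP

open Pool.Agent.ThriftyBP

/-- A suitable width for `n` elements. -/
theorem exists_width {n : ℕ} (hn : 4096 ≤ n) :
    ∃ j : ℕ, 137 * (j + 5) * 4 ^ j ≤ n ∧ n < 137 * (j + 6) * 4 ^ (j + 1) := by
  have hex : ∃ j : ℕ, n < 137 * (j + 6) * 4 ^ (j + 1) := by
    refine ⟨n, ?_⟩
    have h1 : n < 4 ^ (n + 1) :=
      (Nat.lt_pow_self (by norm_num : 1 < 4)).trans (Nat.pow_lt_pow_right (by norm_num) (by omega))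
    calc n < 1 * 4 ^ (n + 1) := by rw [one_mul]; exact h1
      _ ≤ 137 * (n + 6) * 4 ^ (n + 1) := Nat.mul_le_mul_right _ (by omega)
  classical
  set j := Nat.find hex with hj
  have h1 : n < 137 * (j + 6) * 4 ^ (j + 1) := Nat.find_spec hex
  refine ⟨j, ?_, h1⟩
  rcases Nat.eq_zero_or_pos j with h0 | h0
  · rw [h0]
    omega
  · have h2 : ¬ n < 137 * (j - 1 + 6) * 4 ^ (j - 1 + 1) := Nat.find_min hex (by omega)
    have h3 : j - 1 + 6 = j + 5 := by omega
    have h4 : j - 1 + 1 = j := by omega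
    rw [h3, h4] at h2
    omega

theorem lower_bound {E : Type} [Fintype E] {s t : E} (hst : s ≠ t) (hE : 4096 ≤ Fintype.card E)
    (B : NBP (E × E) E Unit) (hB : Decides B s t) (hP : Proper B s) :
    (2 : ℝ) ^ (√(Fintype.card E / Real.logb 2 (Fintype.card E)) / 24) ≤ B.size := by
  set n := Fintype.card E with hn
  obtain ⟨j, hj1, hj2⟩ := exists_width hE
  have hpow : 0 < 4 ^ j := by positivity
  have h4 : (4 : ℕ) ^ j = 2 ^ j * 2 ^ j := by
    rw [← mul_pow]
    norm_num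
  have h1 : 2 ^ 2 ^ j ≤ B.size := by
    refine main (m := j + 3) (w := 2 ^ j) (by rw [pow_add]; ring) hst ?_ B hB hP
    have h2 : 1 ≤ 2 ^ j := Nat.one_le_two_pow
    have h3 : 17 * (((j + 3) * 2 ^ j + 2) * 2 ^ (j + 3)) + 1 ≤ 137 * (j + 5) * 4 ^ j := by
      rw [h4, pow_add]
      nlinarith [Nat.mul_le_mul h2 h2, Nat.mul_le_mul_left j (Nat.mul_le_mul h2 h2)]
    omega
  have hn0 : (4096 : ℝ) ≤ n := by exact_mod_cast hE
  have hlog12 : 12 ≤ Real.logb 2 n := by
    rw [Real.le_logb_iff_rpow_le (by norm_num) (by linarith)]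
    norm_num
    exact hE
  have hjlog : (j : ℝ) ≤ Real.logb 2 n / 2 := by
    have h5 : 4 ^ j ≤ n := by
      refine le_trans ?_ hj1
      calc 4 ^ j = 1 * 4 ^ j := (one_mul _).symm
        _ ≤ _ := Nat.mul_le_mul_right _ (by omega)
    have h6 : (2 : ℝ) ^ ((2 : ℝ) * j) ≤ n := by
      rw [Real.rpow_mul (by norm_num), Real.rpow_natCast]
      norm_num
      exact_mod_cast h5
    have h7 := (Real.le_logb_iff_rpow_le (by norm_num) (by linarith)).2 h6
    linarith
  have hw : √(n / Real.logb 2 n) / 24 ≤ (2 : ℝ) ^ j := by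
    have h5 : (n : ℝ) ≤ 576 * Real.logb 2 n * (4 : ℝ) ^ j := by
      have h6 : (n : ℝ) ≤ 137 * (j + 6) * 4 ^ (j + 1) := by exact_mod_cast hj2.le
      have h7 : (0 : ℝ) < 4 ^ j := by positivity
      calc (n : ℝ) ≤ 137 * (j + 6) * 4 ^ (j + 1) := h6
        _ = 548 * (j + 6) * 4 ^ j := by ring
        _ ≤ 576 * Real.logb 2 n * 4 ^ j := by
            refine mul_le_mul_of_nonneg_right ?_ h7.le
            nlinarith
    have h8 : √((n : ℝ) / Real.logb 2 n) ≤ 24 * 2 ^ j := by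
      apply Real.sqrt_le_iff.2
      refine ⟨by positivity, ?_⟩
      rw [div_le_iff₀ (by linarith)]
      have h9 : ((24 : ℝ) * 2 ^ j) ^ 2 = 576 * 4 ^ j := by
        rw [mul_pow, ← pow_mul, mul_comm j 2, pow_mul]
        norm_num
      rw [h9]
      linarith
    linarith
  calc (2 : ℝ) ^ (√(n / Real.logb 2 n) / 24) ≤ (2 : ℝ) ^ ((2 : ℝ) ^ j) :=
        Real.rpow_le_rpow_of_exponent_le (by norm_num) hw
    _ = ((2 ^ 2 ^ j : ℕ) : ℝ) := by
        have : ((2 : ℝ) ^ j) = ((2 ^ j : ℕ) : ℝ) := by push_cast; rfl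
        rw [this, Real.rpow_natCast]
        push_cast
        rfl
    _ ≤ B.size := by exact_mod_cast h1

end Pool.Agent.GenBP
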