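import Mathlib

/-!
# Counting labellings with distinct labels
-/

namespace Pool.Agent.GenBP

/-- The number of colourings of `P` that are prescribed at `w` points. -/
theorem card_colouring {P : Type} [Fintype P] [DecidableEq P] {w : ℕ} (g : Fin w → P)
    (hg : Function.Injective g) :
    w ^ (Fintype.card P - w) ≤
      (Finset.univ.filter fun χ : P → Fin w => ∀ i, χ (g i) = i).card := by
  classical
  have h1 : (Finset.univ : Finset ({y : P // y ∉ Finset.univ.image g} → Fin w)).card =
      w ^ (Fintype.card P - w) := by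
    rw [Finset.card_univ, Fintype.card_fun, Fintype.card_fin, Fintype.card_subtype_compl,
      Fintype.card_coe, Finset.card_image_of_injective _ hg, Finset.card_univ, Fintype.card_fin]
  have hmem : ∀ y, (¬ ∃ i, g i = y) → y ∉ Finset.univ.image g := by
    intro y hy h
    obtain ⟨i, -, hi⟩ := Finset.mem_image.1 h
    exact hy ⟨i, hi⟩
  let ext : ({y : P // y ∉ Finset.univ.image g} → Fin w) → P → Fin w := fun χ y =>
    if h : ∃ i, g i = y then h.choose else χ ⟨y, hmem y h⟩
  rw [← h1]
  refine Finset.card_le_card_of_injOn ext ?_ ?_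
  · intro χ _
    refine Finset.mem_coe.2 (Finset.mem_filter.2 ⟨Finset.mem_univ _, fun i => ?_⟩)
    have h : ∃ i', g i' = g i := ⟨i, rfl⟩
    change (if h : ∃ i', g i' = g i then h.choose else χ ⟨g i, hmem _ h⟩) = i
    rw [dif_pos h]
    exact hg h.choose_spec
  · intro χ _ χ' _ he
    funext y
    have h : ¬ ∃ i, g i = y.1 := by
      rintro ⟨i, hi⟩
      exact y.2 (Finset.mem_image.2 ⟨i, Finset.mem_univ _, hi⟩)
    have h2 : ext χ y.1 = ext χ' y.1 := congrFun he y.1
    change (if h : ∃ i, g i = y.1 then h.choose else χ ⟨y.1, hmem _ h⟩) =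
      (if h : ∃ i, g i = y.1 then h.choose else χ' ⟨y.1, hmem _ h⟩) at h2
    rwa [dif_neg h, dif_neg h] at h2

/-- If two labellings with the same key and the same set `F` of `w` nodes that agree outside `F`
and have no collisions on `F` are equal, then there are few labellings. -/
theorem count_embeddings {N P κ : Type} [Fintype N] [DecidableEq N] [Fintype P] [DecidableEq P]
    [Fintype κ] [DecidableEq κ] {w : ℕ} (F : (N ↪ P) → Finset N) (hF : ∀ f, (F f).card = w)
    (key : (N ↪ P) → κ)
    (h : ∀ f f' : N ↪ P, key f = key f' → F f = F f' → (∀ x, x ∉ F f → f x = f' x) →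
      (∀ x ∈ F f, ∀ y ∈ F f, f x = f' y → x = y) → f = f') :
    (Fintype.card P).descFactorial (Fintype.card N) * w ^ (Fintype.card P - w) ≤
      Fintype.card κ * (Fintype.card N).choose w *
        ((Fintype.card P).descFactorial (Fintype.card N - w) * w ^ Fintype.card P) := by
  classical
  -- enumerations
  have hex : ∀ S : Finset N, S.card = w → ∃ e : Fin w → N, Function.Injective e ∧
      ∀ x, x ∈ S ↔ ∃ i, e i = x := by
    intro S hS
    refine ⟨fun i => ((S.equivFinOfCardEq hS).symm i).1, ?_, ?_⟩
    · intro i j hij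
      exact (S.equivFinOfCardEq hS).symm.injective (Subtype.ext hij)
    · intro x
      constructor
      · intro hx
        exact ⟨S.equivFinOfCardEq hS ⟨x, hx⟩, by simp⟩
      · rintro ⟨i, rfl⟩
        exact ((S.equivFinOfCardEq hS).symm i).2
  choose en hinj hen using hex
  have hcongr : ∀ S S' (hS : S.card = w) (hS' : S'.card = w), S = S' → en S hS = en S' hS' := by
    rintro S S' hS hS' rfl
    rfl
  let T : Finset ((N ↪ P) × (P → Fin w)) :=
    Finset.univ.filter fun x => ∀ i, x.2 (x.1 (en (F x.1) (hF x.1) i)) = i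
  -- lower bound
  have h1 : Fintype.card (N ↪ P) * w ^ (Fintype.card P - w) ≤ T.card := by
    have h2 : T.card = ∑ f : N ↪ P, (T.filter fun x => x.1 = f).card :=
      Finset.card_eq_sum_card_fiberwise fun _ _ => Finset.mem_univ _
    rw [h2]
    calc Fintype.card (N ↪ P) * w ^ (Fintype.card P - w)
        = ∑ _f : N ↪ P, w ^ (Fintype.card P - w) := by
          rw [Finset.sum_const, Finset.card_univ, smul_eq_mul]
      _ ≤ _ := by
          refine Finset.sum_le_sum fun f _ => ?_
          refine (card_colouring (fun i => f (en (F f) (hF f) i))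
            (f.injective.comp (hinj _ _))).trans ?_
          refine Finset.card_le_card_of_injOn (fun χ => (f, χ)) ?_ ?_
          · intro χ hχ
            have h3 := (Finset.mem_filter.1 (Finset.mem_coe.1 hχ)).2
            exact Finset.mem_coe.2 (Finset.mem_filter.2
              ⟨Finset.mem_filter.2 ⟨Finset.mem_univ _, h3⟩, rfl⟩)
          · intro χ _ χ' _ he
            exact (Prod.mk.inj he).2
  -- upper bound
  let K : (N ↪ P) × (P → Fin w) → κ × Finset N := fun x => (key x.1, F x.1)
  have h2 : ∀ a ∈ T.image K, (T.filter fun x => K x = a).card ≤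
      (Fintype.card P).descFactorial (Fintype.card N - w) * w ^ Fintype.card P := by
    intro a ha
    obtain ⟨x₀, hx₀, rfl⟩ := Finset.mem_image.1 ha
    have hcard : (Finset.univ : Finset (({x : N // x ∉ F x₀.1} ↪ P) × (P → Fin w))).card =
        (Fintype.card P).descFactorial (Fintype.card N - w) * w ^ Fintype.card P := by
      rw [Finset.card_univ, Fintype.card_prod, Fintype.card_embedding_eq, Fintype.card_fun,
        Fintype.card_fin, Fintype.card_subtype_compl, Fintype.card_coe, hF]
    rw [← hcard]
    refine Finset.card_le_card_of_injOn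
      (fun x => ((Function.Embedding.subtype _).trans x.1, x.2)) (fun _ _ => Finset.mem_univ _) ?_
    intro x hx x' hx' he
    obtain ⟨hxT, hxK⟩ := Finset.mem_filter.1 (Finset.mem_coe.1 hx)
    obtain ⟨hxT', hxK'⟩ := Finset.mem_filter.1 (Finset.mem_coe.1 hx')
    have hxT := (Finset.mem_filter.1 hxT).2
    have hxT' := (Finset.mem_filter.1 hxT').2
    simp only [K, Prod.mk.injEq] at hxK hxK'
    simp only [Prod.mk.injEq] at he
    obtain ⟨e1, e2⟩ := he
    have hFF : F x.1 = F x'.1 := hxK.2.trans hxK'.2.symm
    refine Prod.ext (h x.1 x'.1 (hxK.1.trans hxK'.1.symm) hFF ?_ ?_) e2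
    · intro y hy
      rw [hxK.2] at hy
      exact congrFun (congrArg DFunLike.coe e1) ⟨y, hy⟩
    · intro y hy z hz hyz
      obtain ⟨i, rfl⟩ := (hen _ (hF x.1) y).1 hy
      obtain ⟨j, rfl⟩ := (hen _ (hF x.1) z).1 hz
      have h3 := hxT i
      have h4 := hxT' j
      rw [← hcongr _ _ (hF x.1) (hF x'.1) hFF, ← e2, ← hyz, h3] at h4
      rw [h4]
  have h3 := Finset.card_le_mul_card_image T _ h2
  have h4 : (T.image K).card ≤ Fintype.card κ * (Fintype.card N).choose w := by
    have hsub : T.image K ⊆ Finset.univ ×ˢ Finset.powersetCard w (Finset.univ : Finset N) := by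
      intro a ha
      obtain ⟨x₀, _, rfl⟩ := Finset.mem_image.1 ha
      rw [Finset.mem_product, Finset.mem_powersetCard]
      exact ⟨Finset.mem_univ _, Finset.subset_univ _, hF _⟩
    refine (Finset.card_le_card hsub).trans ?_
    rw [Finset.card_product, Finset.card_powersetCard, Finset.card_univ, Finset.card_univ]
  rw [Fintype.card_embedding_eq] at h1
  calc _ ≤ T.card := h1
    _ ≤ _ := h3
    _ ≤ _ := Nat.mul_le_mul_left _ h4
    _ = _ := by ring

/-- `C(n, w) w ^ w ≤ (4 n) ^ w`. -/
theorem choose_mul_pow_le (n w : ℕ) : n.choose w * w ^ w ≤ (4 * n) ^ w := by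
  have h1 : (w + 1) ^ w ≤ w.factorial * (2 * w).choose w := by
    have := Nat.pow_succ_le_ascFactorial (w + 1) w
    rw [Nat.ascFactorial_eq_factorial_mul_choose] at this
    have h2 : w + w = 2 * w := by ring
    rw [h2] at this
    refine le_trans ?_ this
    exact Nat.pow_le_pow_left (by omega) _
  have h2 : (2 * w).choose w ≤ 4 ^ w := by
    calc (2 * w).choose w ≤ 2 ^ (2 * w) := Nat.choose_le_two_pow _ _
      _ = 4 ^ w := by rw [pow_mul]; norm_num
  calc n.choose w * w ^ w ≤ n.choose w * (w + 1) ^ w :=
        Nat.mul_le_mul_left _ (Nat.pow_le_pow_left (Nat.le_succ _) _)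
    _ ≤ n.choose w * (w.factorial * 4 ^ w) :=
        Nat.mul_le_mul_left _ (h1.trans (Nat.mul_le_mul_left _ h2))
    _ = (w.factorial * n.choose w) * 4 ^ w := by ring
    _ = n.descFactorial w * 4 ^ w := by rw [Nat.descFactorial_eq_factorial_mul_choose]
    _ ≤ n ^ w * 4 ^ w := Nat.mul_le_mul_right _ (Nat.descFactorial_le_pow _ _)
    _ = _ := by rw [mul_pow]; ring

/-- The final form of the count. -/
theorem count_final {N P κ : Type} [Fintype N] [DecidableEq N] [Fintype P] [DecidableEq P]
    [Fintype κ] [DecidableEq κ] {w : ℕ} (hw : 1 ≤ w) (hNP : Fintype.card N ≤ Fintype.card P)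
    (F : (N ↪ P) → Finset N) (hF : ∀ f, (F f).card = w) (key : (N ↪ P) → κ)
    (h : ∀ f f' : N ↪ P, key f = key f' → F f = F f' → (∀ x, x ∉ F f → f x = f' x) →
      (∀ x ∈ F f, ∀ y ∈ F f, f x = f' y → x = y) → f = f') :
    (Fintype.card P + 1 - Fintype.card N) ^ w ≤ Fintype.card κ * (4 * Fintype.card N) ^ w := by
  have h1 := count_embeddings F hF key h
  set p := Fintype.card P with hp
  set n := Fintype.card N with hn
  have hne : Nonempty (N ↪ P) := Function.Embedding.nonempty_of_card_le hNP
  have hwn : w ≤ n := by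
    obtain ⟨f⟩ := hne
    rw [← hF f]
    exact Finset.card_le_univ _
  have h2 : p.descFactorial n = (p - (n - w)).descFactorial w * p.descFactorial (n - w) := by
    have := Nat.descFactorial_mul_descFactorial (n := p) (k := n - w) (m := n) (Nat.sub_le _ _)
    rw [← this, Nat.sub_sub_self hwn]
  have h3 : (p + 1 - n) ^ w ≤ (p - (n - w)).descFactorial w := by
    have := Nat.pow_sub_le_descFactorial (p - (n - w)) w
    refine le_trans (Nat.pow_le_pow_left ?_ _) this
    omega
  have hpos : 0 < p.descFactorial (n - w) := Nat.descFactorial_pos.2 (by omega)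
  have h4 : w ^ p = w ^ w * w ^ (p - w) := by
    rw [← pow_add]
    congr 1
    omega
  have hpos2 : 0 < w ^ (p - w) := by positivity
  have h5 : (p.descFactorial (n - w) * w ^ (p - w)) * (p + 1 - n) ^ w ≤
      (p.descFactorial (n - w) * w ^ (p - w)) * (Fintype.card κ * (4 * n) ^ w) := by
    calc (p.descFactorial (n - w) * w ^ (p - w)) * (p + 1 - n) ^ w
        ≤ (p.descFactorial (n - w) * w ^ (p - w)) * (p - (n - w)).descFactorial w :=
          Nat.mul_le_mul_left _ h3
      _ = p.descFactorial n * w ^ (p - w) := by rw [h2]; ring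
      _ ≤ _ := h1
      _ = (p.descFactorial (n - w) * w ^ (p - w)) * (Fintype.card κ * (n.choose w * w ^ w)) := by
          rw [h4]; ring
      _ ≤ _ := Nat.mul_le_mul_left _ (Nat.mul_le_mul_left _ (choose_mul_pow_le n w))
  exact Nat.le_of_mul_le_mul_left h5 (Nat.mul_pos hpos hpos2)

end Pool.Agent.GenBP
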