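import Pool.Agent.ThriftyBP.Basic

/-!
# The problem GEN and incremental branching programs

Definitions only.  GEN: given a binary operation on a finite set `E`, is the element `t` generated
by the element `s`?  Its branching programs query the entries of the table of the operation.
Incremental programs are those of Gál, Koucký and McKenzie, in the semantic variant.
-/

namespace Pool.Agent.GenBP

open Pool.Agent.ThriftyBP

/-- `Gen op s x`: the element `x` is in the closure of `{s}` under the binary operation `op`. -/
inductive Gen {E : Type} (op : E × E → E) (s : E) : E → Prop
  | base : Gen op s s
  | mul {x y : E} : Gen op s x → Gen op s y → Gen op s (op (x, y))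

/-- The nondeterministic program `B` (with the final state `()` as accepting state) decides GEN
with generator `s` and target `t`: an operation `op` is accepted, i.e. some computation of `B` on
`op` ends in the accepting state, if and only if `s` generates `t`. -/
def Decides {E : Type} (B : NBP (E × E) E Unit) (s t : E) : Prop :=
  ∀ op : E × E → E, (∃ l, B.Path op B.start l ()) ↔ Gen op s t

/-- `B` is (semantically) incremental: in each accepting computation, each query asks for the
product of two elements each of which is `s` or the answer to an earlier query of this
computation. -/
def Incremental {E : Type} (B : NBP (E × E) E Unit) (s : E) : Prop :=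
  ∀ (op : E × E → E) (l₁ l₂ : List B.Q) (q : B.Q), B.Path op B.start (l₁ ++ q :: l₂) () →
    ∀ x : E, x = (B.var q).1 ∨ x = (B.var q).2 → x = s ∨ ∃ q' ∈ l₁, op (B.var q') = x

/-- `B` is proper: the accepting computations query only products of generated elements. -/
def Proper {E : Type} (B : NBP (E × E) E Unit) (s : E) : Prop :=
  ∀ (op : E × E → E) (l : List B.Q), B.Path op B.start l () →
    ∀ q ∈ l, Gen op s (B.var q).1 ∧ Gen op s (B.var q).2

end Pool.Agent.GenBP
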