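import Mathlib

/-!
# Words over the nodes of a stack of butterflies

If each infix of a word has few violations (nodes that are not read in the infix and have a parent
that is), then the word is exponentially long.
-/

namespace Pool.Agent.GenBP

/-- The nodes read by a list of states. -/
def rd {N Q : Type} [DecidableEq N] (ν : Q → Option N) (V : List Q) : Finset N :=
  (V.filterMap ν).toFinset

/-- The nodes outside `S` that are children of nodes of `S`. -/
def viol {N : Type} [DecidableEq N] (ch : N → Finset N) (S : Finset N) : Finset N :=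
  S.biUnion ch \ S

section reads

variable {N Q : Type} [DecidableEq N] {ν : Q → Option N}

theorem mem_rd {V : List Q} {x : N} : x ∈ rd ν V ↔ ∃ q ∈ V, ν q = some x := by
  simp [rd]

theorem rd_append (V W : List Q) : rd ν (V ++ W) = rd ν V ∪ rd ν W := by
  simp [rd]

theorem card_rd_le (V : List Q) : (rd ν V).card ≤ V.length :=
  (List.toFinset_card_le _).trans (List.length_filterMap_le _ _)

/-- Cutting a word into two words that read many nodes of a given kind. -/
theorem exists_cut (p : N → Prop) [DecidablePred p] (a b : ℕ) (V : List Q)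
    (h : a + b ≤ ((rd ν V).filter p).card) :
    ∃ V₁ V₂, V = V₁ ++ V₂ ∧ a ≤ ((rd ν V₁).filter p).card ∧ b ≤ ((rd ν V₂).filter p).card := by
  have key : ∀ V₁ V₂ : List Q, V = V₁ ++ V₂ → ((rd ν V₁).filter p).card ≤ a →
      ∃ V₁ V₂, V = V₁ ++ V₂ ∧ a ≤ ((rd ν V₁).filter p).card ∧ b ≤ ((rd ν V₂).filter p).card := by
    intro V₁ V₂
    induction V₂ generalizing V₁ with
    | nil =>
      intro h1 h2
      rw [List.append_nil] at h1
      refine ⟨V₁, [], by simpa using h1, ?_, ?_⟩
      · rw [h1] at h
        omega
      · rw [h1] at h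
        omega
    | cons q V₂ ih =>
      intro h1 h2
      rcases Nat.eq_or_lt_of_le h2 with h3 | h3
      · refine ⟨V₁, q :: V₂, h1, h3.ge, ?_⟩
        rw [h1, rd_append, Finset.filter_union] at h
        have := Finset.card_union_le ((rd ν V₁).filter p) ((rd ν (q :: V₂)).filter p)
        omega
      · refine ih (V₁ ++ [q]) (by rw [h1]; simp) ?_
        rw [rd_append, Finset.filter_union]
        have h4 := Finset.card_union_le ((rd ν V₁).filter p) ((rd ν [q]).filter p)
        have h5 : ((rd ν [q]).filter p).card ≤ 1 :=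
          (Finset.card_filter_le _ _).trans (card_rd_le [q])
        omega
  exact key [] V rfl (by simp [rd])

end reads

/-! ### The butterflies -/

/-- The columns. -/
abbrev Col (m : ℕ) : Type := Fin m → Bool

/-- The nodes: `L + 1` levels that form a stack of butterflies, and one more level. -/
abbrev Lev (m L : ℕ) : Type := Fin (L + 2) × Col m

/-- Changing one bit of a column. -/
def flip {m : ℕ} (j : Fin m) (c : Col m) : Col m := Function.update c j (!(c j))

/-- `ch` has the edges of the stack of butterflies: between the levels `m * b + j + 1` and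
`m * b + j` the bit `j` can be changed. -/
def Butterfly (m L : ℕ) (ch : Lev m L → Finset (Lev m L)) : Prop :=
  ∀ (b : ℕ) (j : Fin m) (hL : m * b + j + 1 ≤ L) (c : Col m),
    ((⟨m * b + j, by omega⟩, c) : Lev m L) ∈ ch (⟨m * b + j + 1, by omega⟩, c) ∧
    ((⟨m * b + j, by omega⟩, flip j c) : Lev m L) ∈ ch (⟨m * b + j + 1, by omega⟩, c)

/-- The columns of the nodes of `S` on the level `ℓ`. -/
def onLevel {m L : ℕ} (S : Finset (Lev m L)) (ℓ : ℕ) : Finset (Lev m L) :=
  S.filter fun x => x.1.val = ℓ

/-- On the path of the butterfly from `x` to `y`. -/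
def mid {m : ℕ} (x y : Col m) (j : ℕ) : Col m := fun i => if i.val < j then x i else y i

theorem mid_all {m : ℕ} (x y : Col m) : mid x y m = x := by
  funext i
  exact if_pos i.isLt

theorem mid_zero {m : ℕ} (x y : Col m) : mid x y 0 = y := by
  funext i
  exact if_neg (Nat.not_lt_zero _)

theorem mid_step {m : ℕ} (x y : Col m) (j : Fin m) :
    mid x y j = mid x y (j + 1) ∨ mid x y j = flip j (mid x y (j + 1)) := by
  by_cases h : x j = y j
  · left
    funext i
    unfold mid
    by_cases h1 : i.val < j.val
    · rw [if_pos h1, if_pos (by omega)]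
    · rw [if_neg h1]
      by_cases h2 : i.val < j.val + 1
      · rw [if_pos h2]
        have : i = j := Fin.ext (by omega)
        rw [this, h]
      · rw [if_neg h2]
  · right
    funext i
    unfold flip
    by_cases hi : i = j
    · subst hi
      rw [Function.update_self]
      unfold mid
      rw [if_neg (lt_irrefl _), if_pos (Nat.lt_succ_self _)]
      revert h
      cases x i <;> cases y i <;> simp
    · rw [Function.update_of_ne hi]
      unfold mid
      have hi' : i.val ≠ j.val := fun h => hi (Fin.ext h)
      by_cases h1 : i.val < j.val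
      · rw [if_pos h1, if_pos (by omega)]
      · rw [if_neg h1, if_neg (by omega)]

theorem mid_injective {m : ℕ} {x y x' y' : Col m} {j : ℕ} (h1 : mid x y j = mid x' y' j)
    (h2 : mid y x j = mid y' x' j) : x = x' ∧ y = y' := by
  constructor
  · funext i
    have e1 := congrFun h1 i
    have e2 := congrFun h2 i
    unfold mid at e1 e2
    by_cases h : i.val < j
    · rwa [if_pos h, if_pos h] at e1
    · rwa [if_neg h, if_neg h] at e2
  · funext i
    have e1 := congrFun h1 i
    have e2 := congrFun h2 i
    unfold mid at e1 e2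
    by_cases h : i.val < j
    · rwa [if_pos h, if_pos h] at e2
    · rwa [if_neg h, if_neg h] at e1

/-- Going through one butterfly. -/
theorem butterfly_card {m L : ℕ} {ch : Lev m L → Finset (Lev m L)} (hch : Butterfly m L ch)
    (S : Finset (Lev m L)) (b : ℕ) (hb : m * (b + 1) ≤ L) :
    (onLevel S (m * (b + 1))).card * (2 ^ m - (onLevel S (m * b)).card) ≤
      (viol ch S).card * 2 ^ m := by
  classical
  have hmb : m * (b + 1) = m * b + m := by ring
  let top : Col m → Lev m L := fun c => (⟨m * (b + 1), by omega⟩, c)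
  let bot : Col m → Lev m L := fun c => (⟨m * b, by omega⟩, c)
  set X : Finset (Col m) := Finset.univ.filter fun c => top c ∈ S with hX
  set Y : Finset (Col m) := Finset.univ.filter fun c => bot c ∉ S with hY
  have hXc : (onLevel S (m * (b + 1))).card ≤ X.card := by
    refine Finset.card_le_card_of_injOn (fun x => x.2) ?_ ?_
    · intro x hx
      obtain ⟨h1, h2⟩ := Finset.mem_filter.1 (Finset.mem_coe.1 hx)
      refine Finset.mem_coe.2 (Finset.mem_filter.2 ⟨Finset.mem_univ _, ?_⟩)
      have : top x.2 = x := Prod.ext (Fin.ext h2.symm) rfl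
      rw [this]
      exact h1
    · intro x hx x' hx' he
      have h1 := (Finset.mem_filter.1 (Finset.mem_coe.1 hx)).2
      have h2 := (Finset.mem_filter.1 (Finset.mem_coe.1 hx')).2
      exact Prod.ext (Fin.ext (h1.trans h2.symm)) he
  have hYc : 2 ^ m - (onLevel S (m * b)).card ≤ Y.card := by
    have h1 : (Finset.univ.filter fun c : Col m => bot c ∈ S).card ≤ (onLevel S (m * b)).card := by
      refine Finset.card_le_card_of_injOn bot ?_ ?_
      · intro c hc
        exact Finset.mem_coe.2 (Finset.mem_filter.2
          ⟨(Finset.mem_filter.1 (Finset.mem_coe.1 hc)).2, rfl⟩)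
      · intro c _ c' _ he
        exact (Prod.mk.inj he).2
    have h2 : (Finset.univ.filter fun c : Col m => bot c ∈ S).card + Y.card = 2 ^ m := by
      rw [hY, Finset.card_filter_add_card_filter_not, Finset.card_univ, Fintype.card_fun,
        Fintype.card_bool, Fintype.card_fin]
    omega
  -- each pair yields a violation
  have hpair : ∀ p : Col m × Col m, ∃ j : ℕ, p ∈ X ×ˢ Y → ∃ hj : j < m,
      ((⟨m * b + j, by omega⟩, mid p.1 p.2 j) : Lev m L) ∈ viol ch S := by
    intro p
    by_cases hp : p ∈ X ×ˢ Y
    · obtain ⟨h1, h2⟩ := Finset.mem_product.1 hp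
      have h1 := (Finset.mem_filter.1 h1).2
      have h2 := (Finset.mem_filter.1 h2).2
      have key : ∀ j, (hj : j ≤ m) →
          ((⟨m * b + j, by omega⟩, mid p.1 p.2 j) : Lev m L) ∈ S →
          ∃ j : ℕ, ∃ hj : j < m,
            ((⟨m * b + j, by omega⟩, mid p.1 p.2 j) : Lev m L) ∈ viol ch S := by
        intro j
        induction j with
        | zero =>
          intro _ h3
          rw [mid_zero] at h3
          exact absurd h3 h2
        | succ j ih =>
          intro hj h3
          by_cases h4 : ((⟨m * b + j, by omega⟩, mid p.1 p.2 j) : Lev m L) ∈ S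
          · exact ih (by omega) h4
          · refine ⟨j, by omega, Finset.mem_sdiff.2 ⟨Finset.mem_biUnion.2 ⟨_, h3, ?_⟩, h4⟩⟩
            have h5 := hch b ⟨j, by omega⟩ (by simp only; omega) (mid p.1 p.2 (j + 1))
            rcases mid_step p.1 p.2 ⟨j, by omega⟩ with h6 | h6
            · simp only at h6
              rw [h6]
              exact h5.1
            · simp only at h6
              rw [h6]
              exact h5.2
      have h3 : ((⟨m * b + m, by omega⟩, mid p.1 p.2 m) : Lev m L) ∈ S := by
        rw [mid_all]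
        have : ((⟨m * b + m, by omega⟩, p.1) : Lev m L) = top p.1 := Prod.ext (Fin.ext hmb.symm) rfl
        rw [this]
        exact h1
      obtain ⟨j, hj, h4⟩ := key m le_rfl h3
      exact ⟨j, fun _ => ⟨hj, h4⟩⟩
    · exact ⟨0, fun h => absurd h hp⟩
  choose J hJ using hpair
  have h1 : (X ×ˢ Y).card ≤ (viol ch S ×ˢ (Finset.univ : Finset (Col m))).card := by
    refine Finset.card_le_card_of_injOn (fun p => if hj : J p < m then
      (((⟨m * b + J p, by omega⟩, mid p.1 p.2 (J p)) : Lev m L), mid p.2 p.1 (J p)) else
      (bot p.1, p.1)) ?_ ?_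
    · intro p hp
      obtain ⟨hj, h2⟩ := hJ p (Finset.mem_coe.1 hp)
      simp only
      rw [dif_pos hj]
      exact Finset.mem_coe.2 (Finset.mem_product.2 ⟨h2, Finset.mem_univ _⟩)
    · intro p hp p' hp' he
      obtain ⟨hj, -⟩ := hJ p (Finset.mem_coe.1 hp)
      obtain ⟨hj', -⟩ := hJ p' (Finset.mem_coe.1 hp')
      simp only at he
      rw [dif_pos hj, dif_pos hj'] at he
      simp only [Prod.mk.injEq, Fin.mk.injEq, Nat.add_left_cancel_iff] at he
      obtain ⟨⟨e1, e2⟩, e3⟩ := he
      rw [e1] at e2 e3
      obtain ⟨e4, e5⟩ := mid_injective e2 e3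
      exact Prod.ext e4 e5
  rw [Finset.card_product, Finset.card_product, Finset.card_univ, Fintype.card_fun,
    Fintype.card_bool, Fintype.card_fin] at h1
  exact (Nat.mul_le_mul hXc hYc).trans h1

/-- Words with few violations that read many nodes on a high level are long. -/
theorem len_lower {Q : Type} {m L w : ℕ} {ch : Lev m L → Finset (Lev m L)}
    (hch : Butterfly m L ch) (hM : 2 ^ m = 8 * w) {ν : Q → Option (Lev m L)} (b : ℕ)
    (hb : m * b ≤ L) (V : List Q)
    (hV : ∀ A V' C, V = A ++ (V' ++ C) → (viol ch (rd ν V')).card < w)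
    (h : 2 * w ≤ (onLevel (rd ν V) (m * b)).card) : 2 ^ b * (2 * w) ≤ V.length := by
  induction b generalizing V with
  | zero =>
    rw [pow_zero, one_mul]
    exact h.trans ((Finset.card_filter_le _ _).trans (card_rd_le V))
  | succ b ih =>
    have h1 := butterfly_card hch (rd ν V) b hb
    have h2 := hV [] V [] (by simp)
    set x := (onLevel (rd ν V) (m * (b + 1))).card with hx
    set y := (onLevel (rd ν V) (m * b)).card with hy
    have hw : 1 ≤ w := by omega
    have h3 : 4 * w ≤ y := by
      by_contra hcon
      push Not at hcon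
      have h4 : 4 * w + 1 ≤ 2 ^ m - y := by omega
      have h5 : 2 * w * (4 * w + 1) ≤ (w - 1) * (8 * w) := by
        calc 2 * w * (4 * w + 1) ≤ x * (2 ^ m - y) := Nat.mul_le_mul h h4
          _ ≤ (viol ch (rd ν V)).card * 2 ^ m := h1
          _ ≤ (w - 1) * 2 ^ m := Nat.mul_le_mul_right _ (by omega)
          _ = _ := by rw [hM]
      obtain ⟨w', rfl⟩ : ∃ w', w = w' + 1 := ⟨w - 1, by omega⟩
      simp only [Nat.add_sub_cancel] at h5
      nlinarith
    obtain ⟨V₁, V₂, rfl, h6, h7⟩ := exists_cut (ν := ν) (fun z : Lev m L => z.1.val = m * b)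
      (2 * w) (2 * w) V (by
        have : y = ((rd ν V).filter fun z : Lev m L => z.1.val = m * b).card := rfl
        omega)
    have hb' : m * b ≤ L := le_trans (Nat.mul_le_mul_left _ (Nat.le_succ b)) hb
    have h8 := ih hb' V₁ (fun A V' C he => hV A V' (C ++ V₂) (by rw [he]; simp)) h6
    have h9 := ih hb' V₂ (fun A V' C he => hV (V₁ ++ A) V' C (by rw [he]; simp)) h7
    rw [List.length_append, pow_succ]
    calc 2 ^ b * 2 * (2 * w) = 2 ^ b * (2 * w) + 2 ^ b * (2 * w) := by ring
      _ ≤ _ := Nat.add_le_add h8 h9

end Pool.Agent.GenBP
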