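import Pool.Agent.GenBP.Table
import Pool.Agent.GenBP.Words

/-!
# The stack of butterflies as a system of products
-/

namespace Pool.Agent.GenBP

open Pool.Agent.ThriftyBP

/-- A numbering of the columns. -/
noncomputable def idx (m : ℕ) : Col m ≃ Fin (2 ^ m) :=
  Fintype.equivFinOfCardEq (by rw [Fintype.card_fun, Fintype.card_bool, Fintype.card_fin])

open Classical in
/-- The previous column. -/
noncomputable def pre {m : ℕ} (c : Col m) : Option (Col m) :=
  if h : (idx m c).val = 0 then none
  else some ((idx m).symm ⟨(idx m c).val - 1, by have := (idx m c).isLt; omega⟩)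

theorem pre_none {m : ℕ} {c : Col m} (h : pre c = none) : (idx m c).val = 0 := by
  unfold pre at h
  by_contra h0
  rw [dif_neg h0] at h
  exact nomatch h

theorem pre_some {m : ℕ} {c c' : Col m} (h : pre c = some c') :
    (idx m c).val = (idx m c').val + 1 := by
  unfold pre at h
  by_cases h0 : (idx m c).val = 0
  · rw [dif_pos h0] at h
    exact nomatch h
  · rw [dif_neg h0, Option.some.injEq] at h
    rw [← h, Equiv.apply_symm_apply]
    simp only
    omega

theorem pre_inj {m : ℕ} {c c' : Col m} (h : pre c = pre c') : c = c' := by
  apply (idx m).injective
  apply Fin.ext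
  cases h1 : pre c with
  | none =>
    rw [pre_none h1, pre_none (h ▸ h1)]
  | some d =>
    rw [pre_some h1, pre_some (h ▸ h1 : pre c' = some d)]

/-- The last column. -/
noncomputable def lastCol (m : ℕ) : Col m :=
  (idx m).symm ⟨2 ^ m - 1, by have : 0 < 2 ^ m := by positivity
                              omega⟩

variable {m : ℕ} (hm : 0 < m) (L : ℕ)

/-- The left child. -/
noncomputable def chl : Option (Lev m L) → Option (Lev m L)
  | none => some (⟨L + 1, by omega⟩, lastCol m)
  | some x => if x.1.val = 0 then none else some (⟨x.1.val - 1, by have := x.1.isLt; omega⟩, x.2)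

/-- The right child. -/
noncomputable def chr : Option (Lev m L) → Option (Lev m L)
  | none => none
  | some x => if x.1.val = 0 ∨ x.1.val = L + 1 then (pre x.2).map fun c => (x.1, c)
    else some (⟨x.1.val - 1, by have := x.1.isLt; omega⟩,
      flip ⟨(x.1.val - 1) % m, Nat.mod_lt _ hm⟩ x.2)

/-- The rank. -/
noncomputable def rank (x : Lev m L) : ℕ :=
  if x.1.val = 0 then (idx m x.2).val
  else if x.1.val = L + 1 then 2 ^ m + L + 1 + (idx m x.2).val else 2 ^ m + x.1.val

/-- The stack of butterflies, with a chain below and a chain above. -/
noncomputable def stack : Dag (Lev m L) where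
  l := chl L
  r := chr hm L
  inj := by
    intro u u' hl hr
    rcases u with _ | x
    · rcases u' with _ | x'
      · rfl
      · exfalso
        by_cases h' : x'.1.val = 0
        · simp [chl, h'] at hl
        · simp only [chl, if_neg h', Option.some.injEq, Prod.mk.injEq, Fin.mk.injEq] at hl
          have := x'.1.isLt
          omega
    · rcases u' with _ | x'
      · exfalso
        by_cases h : x.1.val = 0
        · simp [chl, h] at hl
        · simp only [chl, if_neg h, Option.some.injEq, Prod.mk.injEq, Fin.mk.injEq] at hl
          have := x.1.isLt
          omega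
      · by_cases h : x.1.val = 0
        · by_cases h' : x'.1.val = 0
          · simp only [chr, h, h', true_or, if_true] at hr
            have hx : x.1 = x'.1 := Fin.ext (h.trans h'.symm)
            rw [hx] at hr
            have hinj : Function.Injective fun c : Col m => (x'.1, c) := fun a b hab =>
              (Prod.mk.inj hab).2
            have := Option.map_injective hinj hr
            rw [Option.some.injEq]
            exact Prod.ext hx (pre_inj this)
          · simp [chl, h, h'] at hl
        · by_cases h' : x'.1.val = 0
          · simp [chl, h, h'] at hl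
          · simp only [chl, if_neg h, if_neg h', Option.some.injEq, Prod.mk.injEq,
              Fin.mk.injEq] at hl
            rw [Option.some.injEq]
            exact Prod.ext (Fin.ext (by omega)) hl.2
  rk := rank L
  rk_l := by
    intro x y h
    have hi := (idx m y.2).isLt
    have hx := x.1.isLt
    by_cases h0 : x.1.val = 0
    · simp [chl, h0] at h
    · simp only [chl, if_neg h0, Option.some.injEq] at h
      subst h
      simp only [rank]
      simp only at hi
      rw [if_neg h0]
      split_ifs <;> omega
  rk_r := by
    intro x y h
    have hi := (idx m y.2).isLt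
    have hx := x.1.isLt
    by_cases h0 : x.1.val = 0 ∨ x.1.val = L + 1
    · simp only [chr, if_pos h0, Option.map_eq_some_iff] at h
      obtain ⟨c, hc, rfl⟩ := h
      have := pre_some hc
      simp only [rank]
      split_ifs <;> omega
    · simp only [chr, if_neg h0, Option.some.injEq] at h
      subst h
      simp only [rank]
      simp only at hi
      split_ifs <;> omega

open Classical in
/-- The children of a node. -/
noncomputable def kids (x : Lev m L) : Finset (Lev m L) :=
  Finset.univ.filter fun y => (stack hm L).l (some x) = some y ∨ (stack hm L).r (some x) = some y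

theorem mem_kids {x y : Lev m L} : y ∈ kids hm L x ↔
    (stack hm L).l (some x) = some y ∨ (stack hm L).r (some x) = some y := by
  classical
  simp [kids]

theorem stack_butterfly : Butterfly m L (kids hm L) := by
  intro b j hL c
  have h0 : ¬ (m * b + j.val + 1 = 0) := by omega
  have h1 : ¬ (m * b + j.val + 1 = 0 ∨ m * b + j.val + 1 = L + 1) := by omega
  constructor
  · rw [mem_kids]
    left
    change (if m * b + j.val + 1 = 0 then none else some _) = _
    rw [if_neg h0]
    simp
  · rw [mem_kids]
    right
    change (if m * b + j.val + 1 = 0 ∨ m * b + j.val + 1 = L + 1 then _ else some _) = _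
    rw [if_neg h1]
    have h2 : (m * b + j.val) % m = j.val := by
      rw [Nat.mul_add_mod, Nat.mod_eq_of_lt j.isLt]
    simp only [Nat.add_sub_cancel, h2]

theorem card_lev : Fintype.card (Lev m L) = (L + 2) * 2 ^ m := by
  rw [Fintype.card_prod, Fintype.card_fin, Fintype.card_fun, Fintype.card_bool, Fintype.card_fin]

end Pool.Agent.GenBP
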