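import Pool.Agent.GenBP.Graph
import Pool.Agent.GenBP.Count

/-!
# Proper nondeterministic programs for GEN are exponentially large
-/

namespace Pool.Agent.GenBP

open Pool.Agent.ThriftyBP

section

variable {N E Q : Type}

open Classical in
/-- The node whose entry a state queries. -/
noncomputable def nu (G : Dag N) (s : E) (f : N → E) (var : Q → E × E) : Q → Option N := fun q =>
  if h : ∃ c, var q = ent G s f (some c) then some h.choose else none

theorem Good.nu_eq {G : Dag N} {s t : E} {f : N → E} (h : Good s t f) {var : Q → E × E} {q : Q}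
    {c : N} : nu G s f var q = some c ↔ var q = ent G s f (some c) := by
  classical
  unfold nu
  constructor
  · intro h1
    by_cases h2 : ∃ c, var q = ent G s f (some c)
    · rw [dif_pos h2, Option.some.injEq] at h1
      rw [← h1]
      exact h2.choose_spec
    · rw [dif_neg h2] at h1
      exact nomatch h1
  · intro h1
    have h2 : ∃ c, var q = ent G s f (some c) := ⟨c, h1⟩
    rw [dif_pos h2]
    exact h.ent_inj (h2.choose_spec.symm.trans h1)

end

theorem pre_eq {m : ℕ} {c c' : Col m} (h : (idx m c).val = (idx m c').val + 1) :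
    pre c = some c' := by
  cases h1 : pre c with
  | none =>
    have := pre_none h1
    omega
  | some d =>
    have h2 := pre_some h1
    rw [Option.some.injEq]
    apply (idx m).injective
    apply Fin.ext
    omega

section

variable {m L : ℕ} {hm : 0 < m} {E : Type} {s t : E} {f : Lev m L → E} {B : NBP (E × E) E Unit}

/-- All nodes of the level `L` are read. -/
theorem all_read (h : Good s t f) (hst : s ≠ t) (hB : Decides B s t) (hP : Proper B s)
    {l : List B.Q} (hl : B.Path (tab (stack hm L) s t f) B.start l ()) (c : Col m) :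
    ∃ q ∈ l, B.var q = ent (stack hm L) s f (some (⟨L, by omega⟩, c)) := by
  have h0 : ∃ q ∈ l, B.var q = ent (stack hm L) s f (some (⟨L + 1, by omega⟩, lastCol m)) :=
    h.child_read hP hl (h.root_read hst hB hl) (Or.inl rfl)
  have h1 : ∀ j : ℕ, ∀ c : Col m, (idx m c).val + j = 2 ^ m - 1 →
      ∃ q ∈ l, B.var q = ent (stack hm L) s f (some (⟨L + 1, by omega⟩, c)) := by
    intro j
    induction j with
    | zero =>
      intro c hc
      have : c = lastCol m := by
        unfold lastCol
        rw [Equiv.eq_symm_apply]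
        exact Fin.ext (by simpa using hc)
      rw [this]
      exact h0
    | succ j ih =>
      intro c hc
      have hlt : (idx m c).val + 1 < 2 ^ m := by omega
      set c' : Col m := (idx m).symm ⟨(idx m c).val + 1, hlt⟩ with hc'
      have hv : (idx m c').val = (idx m c).val + 1 := by
        rw [hc', Equiv.apply_symm_apply]
      obtain h2 := ih c' (by omega)
      refine h.child_read hP hl h2 (Or.inr ?_)
      change (if (L + 1 = 0 ∨ L + 1 = L + 1) then _ else _) = _
      rw [if_pos (Or.inr rfl)]
      simp only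
      rw [pre_eq hv]
      rfl
  have hlt := (idx m c).isLt
  have h2 := h1 (2 ^ m - 1 - (idx m c).val) c (by omega)
  refine h.child_read hP hl h2 (Or.inl ?_)
  change (if L + 1 = 0 then none else some _) = _
  rw [if_neg (Nat.succ_ne_zero L)]
  rfl

end

/-- The lower bound. -/
theorem main {E : Type} [Fintype E] {m w : ℕ} (hM : 2 ^ m = 8 * w) {s t : E} (hst : s ≠ t)
    (hE : 17 * ((m * w + 2) * 2 ^ m) + 1 ≤ Fintype.card E) (B : NBP (E × E) E Unit)
    (hB : Decides B s t) (hP : Proper B s) : 2 ^ w ≤ B.size := by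
  classical
  let _ := B.finQ
  have hw : 1 ≤ w := by
    have : 0 < 2 ^ m := by positivity
    omega
  have hm : 0 < m := by
    rcases Nat.eq_zero_or_pos m with h | h
    · rw [h] at hM
      omega
    · exact h
  by_contra hcon
  push Not at hcon
  have hsize : B.size = Fintype.card B.Q + 1 := by
    unfold NBP.size
    rw [Fintype.card_unit]
  set L := m * w with hL
  let P : Type := {x : E // x ≠ s ∧ x ≠ t}
  have hgood : ∀ f : Lev m L ↪ P, Good s t fun x => (f x).1 := fun f =>
    ⟨fun x y h => f.injective (Subtype.ext h), fun x => (f x).2.1, fun x => (f x).2.2⟩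
  -- the data of a labelling
  have hdata : ∀ f : Lev m L ↪ P, ∃ (A V C : List B.Q) (s₁ s₂ : B.Q ⊕ Unit) (F : Finset (Lev m L)),
      B.Path (tab (stack hm L) s t fun x => (f x).1) B.start (A ++ (V ++ C)) () ∧
      B.Walk (tab (stack hm L) s t fun x => (f x).1) A B.start s₁ ∧
      B.Walk (tab (stack hm L) s t fun x => (f x).1) V s₁ s₂ ∧
      B.Path (tab (stack hm L) s t fun x => (f x).1) s₂ C () ∧
      F ⊆ viol (kids hm L) (rd (nu (stack hm L) s (fun x => (f x).1) B.var) V) ∧ F.card = w := by
    intro f
    have hg := hgood f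
    obtain ⟨l₀, hl₀⟩ := (hB _).2 (hg.gen_t (G := stack hm L))
    obtain ⟨l, hnd, hl⟩ := exists_nodup hl₀
    have hlen : l.length ≤ Fintype.card B.Q := List.Nodup.length_le_card hnd
    have h1 : ∃ A V C, l = A ++ (V ++ C) ∧
        w ≤ (viol (kids hm L) (rd (nu (stack hm L) s (fun x => (f x).1) B.var) V)).card := by
      by_contra hcon2
      push Not at hcon2
      have h2 : 2 * w ≤
          (onLevel (rd (nu (stack hm L) s (fun x => (f x).1) B.var) l) (m * w)).card := by
        have h3 : (Finset.univ : Finset (Col m)).card ≤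
            (onLevel (rd (nu (stack hm L) s (fun x => (f x).1) B.var) l) (m * w)).card := by
          refine Finset.card_le_card_of_injOn (fun c => (⟨L, by omega⟩, c)) ?_ ?_
          · intro c _
            refine Finset.mem_coe.2 (Finset.mem_filter.2 ⟨mem_rd.2 ?_, rfl⟩)
            obtain ⟨q, hq, hqc⟩ := all_read hg hst hB hP hl c
            exact ⟨q, hq, hg.nu_eq.2 hqc⟩
          · intro c _ c' _ he
            exact (Prod.mk.inj he).2
        rw [Finset.card_univ, Fintype.card_fun, Fintype.card_bool, Fintype.card_fin] at h3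
        omega
      have h3 := len_lower (stack_butterfly hm L) hM w le_rfl l hcon2 h2
      have h4 : 2 ^ w * 1 ≤ 2 ^ w * (2 * w) := Nat.mul_le_mul_left _ (by omega)
      omega
    obtain ⟨A, V, C, rfl, h2⟩ := h1
    obtain ⟨F, hF1, hF2⟩ := Finset.exists_subset_card_eq h2
    obtain ⟨s₁, h3, h4⟩ := NBP.path_append.1 hl
    obtain ⟨s₂, h5, h6⟩ := NBP.path_append.1 h4
    exact ⟨A, V, C, s₁, s₂, F, hl, h3, h5, h6, hF1, hF2⟩
  choose A V C s₁ s₂ F hpath hA hV hC hF1 hF2 using hdata
  have hcardP : Fintype.card P = Fintype.card E - 2 := by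
    have h1 : Fintype.card P = Fintype.card E - Fintype.card {x : E // x = s ∨ x = t} := by
      rw [← Fintype.card_subtype_compl]
      refine Fintype.card_congr (Equiv.subtypeEquivRight fun x => ?_)
      push Not
      rfl
    have h2 : Fintype.card {x : E // x = s ∨ x = t} = 2 := by
      rw [Fintype.card_subtype]
      have : (Finset.univ.filter fun x : E => x = s ∨ x = t) = {s, t} := by
        ext x
        simp
      rw [this, Finset.card_pair hst]
    rw [h1, h2]
  have hN := card_lev (m := m) L
  have hNpos : 1 ≤ (L + 2) * 2 ^ m := Nat.mul_pos (by omega) (by positivity)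
  have h1 := count_final (N := Lev m L) (P := P) hw (by omega) F hF2 (fun f => (s₁ f, s₂ f)) (by
    intro f f' hk hFF hout hcol
    simp only [Prod.mk.injEq] at hk
    obtain ⟨hk1, hk2⟩ := hk
    apply DFunLike.ext
    intro x
    by_cases hx : x ∈ F f
    · have hx' : x ∈ F f' := hFF ▸ hx
      have h2 := Finset.mem_sdiff.1 (hF1 f' hx')
      obtain ⟨y, hy, hxy⟩ := Finset.mem_biUnion.1 h2.1
      obtain ⟨q, hq, hqy⟩ := mem_rd.1 hy
      apply Subtype.ext
      refine splice (G := stack hm L) (s := s) (t := t) (f := fun x => (f x).1)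
        (f' := fun x => (f' x).1) (hgood f) (hgood f') hst hP (hA f) (hC f) ⟨V f, hpath f⟩
        (by rw [hk1, hk2]; exact hV f') (hpath f') (F f) (fun x hx => by rw [hout x hx])
        (fun x hx y hy hxy => hcol x hx y hy (Subtype.ext hxy)) ?_
        ⟨q, hq, ((hgood f').nu_eq).1 hqy⟩ ((mem_kids hm L).1 hxy)
      intro c hc q hq hqc
      have hc' := (Finset.mem_sdiff.1 (hF1 f' (hFF ▸ hc))).2
      exact hc' (mem_rd.2 ⟨q, hq, ((hgood f').nu_eq).2 hqc⟩)
    · exact hout x hx)
  rw [hcardP, hN, Fintype.card_prod, Fintype.card_sum, Fintype.card_unit, ← hsize] at h1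
  have h2 : 16 * ((L + 2) * 2 ^ m) ≤ Fintype.card E - 2 + 1 - (L + 2) * 2 ^ m := by omega
  have h3 : 4 ^ w * (4 * ((L + 2) * 2 ^ m)) ^ w ≤
      B.size * B.size * (4 * ((L + 2) * 2 ^ m)) ^ w := by
    calc 4 ^ w * (4 * ((L + 2) * 2 ^ m)) ^ w = (16 * ((L + 2) * 2 ^ m)) ^ w := by
          rw [← mul_pow]
          congr 1
          ring
      _ ≤ _ := Nat.pow_le_pow_left h2 _
      _ ≤ _ := h1
  have h4 : 4 ^ w ≤ B.size * B.size := Nat.le_of_mul_le_mul_right h3 (by positivity)
  have h5 : B.size * B.size < 2 ^ w * 2 ^ w := Nat.mul_self_lt_mul_self hcon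
  rw [← mul_pow] at h5
  norm_num at h5
  omega

end Pool.Agent.GenBP
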