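import Pool.Agent.GenBP.Defs
import Pool.Agent.ThriftyBP.TimeLower

/-!
# Operation tables from directed acyclic graphs
-/

namespace Pool.Agent.GenBP

open Pool.Agent.ThriftyBP

/-- A system of products: the root (`none` as an argument) and each node `some x` is the product
of two nodes, or of a node and the start element (`none` as a value), or of the start element with
itself. -/
structure Dag (N : Type) where
  l : Option N → Option N
  r : Option N → Option N
  inj : ∀ {u u' : Option N}, l u = l u' → r u = r u' → u = u'
  rk : N → ℕ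
  rk_l : ∀ {x y : N}, l (some x) = some y → rk y < rk x
  rk_r : ∀ {x y : N}, r (some x) = some y → rk y < rk x

/-- The labels of the nodes, with the label `a` for `none`. -/
def lab {N E : Type} (a : E) (f : N → E) : Option N → E
  | none => a
  | some x => f x

/-- A labelling with distinct labels, different from `s` and `t`. -/
structure Good {N E : Type} (s t : E) (f : N → E) : Prop where
  inj : Function.Injective f
  ne_s : ∀ x, f x ≠ s
  ne_t : ∀ x, f x ≠ t

theorem Good.lab_inj {N E : Type} {s t : E} {f : N → E} (h : Good s t f) {a b : Option N}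
    (hab : lab s f a = lab s f b) : a = b := by
  rcases a with _ | x
  · rcases b with _ | y
    · rfl
    · exact absurd hab.symm (h.ne_s y)
  · rcases b with _ | y
    · exact absurd hab (h.ne_s x)
    · rw [h.inj hab]

theorem Good.lab_ne {N E : Type} {s t : E} {f : N → E} (h : Good s t f) (hst : s ≠ t)
    (a : Option N) : lab s f a ≠ t := by
  rcases a with _ | x
  · exact hst
  · exact h.ne_t x

section

variable {N E : Type} (G : Dag N) (s t : E) (f : N → E)

/-- The entry of the table that yields the node. -/
def ent (u : Option N) : E × E := (lab s f (G.l u), lab s f (G.r u))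

open Classical in
/-- The operation table of a labelling. -/
noncomputable def tab : E × E → E := fun p =>
  if h : ∃ u, p = ent G s f u then lab t f h.choose else s

variable {G s t f}

theorem Good.ent_inj (h : Good s t f) {u u' : Option N} (he : ent G s f u = ent G s f u') :
    u = u' := by
  unfold ent at he
  rw [Prod.mk.injEq] at he
  exact G.inj (h.lab_inj he.1) (h.lab_inj he.2)

theorem Good.tab_ent (h : Good s t f) (u : Option N) : tab G s t f (ent G s f u) = lab t f u := by
  have hex : ∃ u', ent G s f u = ent G s f u' := ⟨u, rfl⟩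
  unfold tab
  rw [dif_pos hex, ← h.ent_inj hex.choose_spec]

theorem tab_of_not {p : E × E} (h : ¬ ∃ u, p = ent G s f u) : tab G s t f p = s := by
  unfold tab
  rw [dif_neg h]

theorem gen_mem {op : E × E → E} {s z : E} (S : Set E) (hs : s ∈ S)
    (hop : ∀ x ∈ S, ∀ y ∈ S, op (x, y) ∈ S) (h : Gen op s z) : z ∈ S := by
  induction h with
  | base => exact hs
  | mul _ _ ih1 ih2 => exact hop _ ih1 _ ih2

/-- All labels are generated. -/
theorem Good.gen_lab (h : Good s t f) (x : N) : Gen (tab G s t f) s (f x) := by
  have key : ∀ n, ∀ x : N, G.rk x = n → Gen (tab G s t f) s (f x) := by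
    intro n
    induction n using Nat.strong_induction_on with
    | _ n ih =>
      intro x hx
      have h1 : Gen (tab G s t f) s (lab s f (G.l (some x))) := by
        cases hl : G.l (some x) with
        | none => exact Gen.base
        | some y => exact ih _ (hx ▸ G.rk_l hl) y rfl
      have h2 : Gen (tab G s t f) s (lab s f (G.r (some x))) := by
        cases hr : G.r (some x) with
        | none => exact Gen.base
        | some y => exact ih _ (hx ▸ G.rk_r hr) y rfl
      have h3 := Gen.mul h1 h2
      have h4 : tab G s t f (lab s f (G.l (some x)), lab s f (G.r (some x))) = f x :=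
        h.tab_ent (some x)
      rwa [h4] at h3
  exact key _ x rfl

theorem Good.gen_t (h : Good s t f) : Gen (tab G s t f) s t := by
  have h1 : ∀ a : Option N, Gen (tab G s t f) s (lab s f a) := by
    intro a
    cases a with
    | none => exact Gen.base
    | some y => exact h.gen_lab y
  have h3 := Gen.mul (h1 (G.l none)) (h1 (G.r none))
  have h4 : tab G s t f (lab s f (G.l none), lab s f (G.r none)) = t := h.tab_ent none
  rwa [h4] at h3

/-- The generated elements. -/
def elts (s t : E) (f : N → E) : Set E := {z | z = t ∨ ∃ a, z = lab s f a}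

theorem tab_mem (h : Good s t f) (p : E × E) : tab G s t f p ∈ elts s t f := by
  by_cases hp : ∃ u, p = ent G s f u
  · obtain ⟨u, rfl⟩ := hp
    rw [h.tab_ent]
    rcases u with _ | x
    · exact Or.inl rfl
    · exact Or.inr ⟨some x, rfl⟩
  · rw [tab_of_not hp]
    exact Or.inr ⟨none, rfl⟩

theorem Good.gen_elts (h : Good s t f) {z : E} (hz : Gen (tab G s t f) s z) :
    z ∈ elts s t f :=
  gen_mem _ (Or.inr ⟨none, rfl⟩) (fun _ _ _ _ => tab_mem h _) hz

/-! ### Removing an entry -/

variable (G s t f) in
open Classical in
/-- The table without the entry of `u`. -/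
noncomputable def cut (u : Option N) : E × E → E := fun p =>
  if p = ent G s f u then s else tab G s t f p

theorem cut_of_ne {u : Option N} {p : E × E} (h : p ≠ ent G s f u) :
    cut G s t f u p = tab G s t f p := if_neg h

theorem Good.cut_gen (h : Good s t f) {u : Option N} {z : E} (hz : Gen (cut G s t f u) s z) :
    (∃ a, z = lab s f a ∧ ∀ c, u = some c → a ≠ some c) ∨ (u ≠ none ∧ z = t) := by
  refine gen_mem {z | (∃ a, z = lab s f a ∧ ∀ c, u = some c → a ≠ some c) ∨ (u ≠ none ∧ z = t)}
    ?_ ?_ hz
  · exact Or.inl ⟨none, rfl, fun c _ => by simp⟩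
  · intro x _ y _
    by_cases h1 : (x, y) = ent G s f u
    · have : cut G s t f u (x, y) = s := if_pos h1
      rw [this]
      exact Or.inl ⟨none, rfl, fun c _ => by simp⟩
    · rw [cut_of_ne h1]
      by_cases h2 : ∃ u', (x, y) = ent G s f u'
      · obtain ⟨u', h3⟩ := h2
        have hne : u' ≠ u := fun h4 => h1 (h4 ▸ h3)
        rw [h3, h.tab_ent]
        rcases u' with _ | c'
        · exact Or.inr ⟨hne.symm, rfl⟩
        · refine Or.inl ⟨some c', rfl, fun c hc h4 => hne ?_⟩
          rw [h4, hc]
      · rw [tab_of_not h2]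
        exact Or.inl ⟨none, rfl, fun c _ => by simp⟩

variable {B : NBP (E × E) E Unit}

/-- The root is read. -/
theorem Good.root_read (h : Good s t f) (hst : s ≠ t) (hB : Decides B s t) {l : List B.Q}
    (hl : B.Path (tab G s t f) B.start l ()) : ∃ q ∈ l, B.var q = ent G s f none := by
  by_contra hcon
  push Not at hcon
  have h1 : B.Path (cut G s t f none) B.start l () :=
    NBP.path_congr hl fun q hq => (cut_of_ne (hcon q hq)).symm
  rcases h.cut_gen ((hB _).1 ⟨l, h1⟩) with ⟨a, h2, -⟩ | ⟨h2, -⟩
  · exact h.lab_ne hst a h2.symm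
  · exact h2 rfl

/-- The children of a node that is read are read. -/
theorem Good.child_read (h : Good s t f) (hP : Proper B s) {l : List B.Q}
    (hl : B.Path (tab G s t f) B.start l ()) {u : Option N} (hu : ∃ q ∈ l, B.var q = ent G s f u)
    {c : N} (hc : G.l u = some c ∨ G.r u = some c) : ∃ q ∈ l, B.var q = ent G s f (some c) := by
  by_contra hcon
  push Not at hcon
  have h1 : B.Path (cut G s t f (some c)) B.start l () :=
    NBP.path_congr hl fun q hq => (cut_of_ne (hcon q hq)).symm
  obtain ⟨q, hq, hqu⟩ := hu
  have h2 := hP _ _ h1 q hq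
  rw [hqu] at h2
  have h3 : Gen (cut G s t f (some c)) s (f c) := by
    rcases hc with hc | hc
    · have := h2.1
      unfold ent at this
      rw [hc] at this
      exact this
    · have := h2.2
      unfold ent at this
      rw [hc] at this
      exact this
  rcases h.cut_gen h3 with ⟨a, h4, h5⟩ | ⟨-, h4⟩
  · exact h5 c rfl (h.lab_inj (a := some c) h4).symm
  · exact h.ne_t c h4

/-! ### Splicing -/

open Classical in
/-- The splicing lemma. -/
theorem splice {f' : N → E} (h : Good s t f) (h' : Good s t f') (hst : s ≠ t) (hP : Proper B s)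
    {A V C A' C' : List B.Q} {s₁ s₂ : B.Q ⊕ Unit}
    (hA : B.Walk (tab G s t f) A B.start s₁) (hC : B.Path (tab G s t f) s₂ C ())
    (hAC : ∃ V', B.Path (tab G s t f) B.start (A ++ (V' ++ C)) ())
    (hV : B.Walk (tab G s t f') V s₁ s₂)
    (hV' : B.Path (tab G s t f') B.start (A' ++ (V ++ C')) ())
    (F : Finset N) (hF : ∀ x, x ∉ F → f x = f' x)
    (hcol : ∀ x ∈ F, ∀ y ∈ F, f x = f' y → x = y)
    (hun : ∀ c ∈ F, ∀ q ∈ V, B.var q ≠ ent G s f' (some c)) {u : Option N}
    (hu : ∃ q ∈ V, B.var q = ent G s f' u) {c : N}
    (hc : G.l u = some c ∨ G.r u = some c) : f c = f' c := by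
  obtain ⟨V', hAC⟩ := hAC
  -- common labels belong to the same node
  have hcom : ∀ a b : Option N, lab s f a = lab s f' b → a = b := by
    intro a b hab
    rcases a with _ | x
    · rcases b with _ | y
      · rfl
      · exact absurd hab.symm (h'.ne_s y)
    · rcases b with _ | y
      · exact absurd hab (h.ne_s x)
      · change f x = f' y at hab
        by_cases hx : x ∈ F
        · by_cases hy : y ∈ F
          · rw [hcol x hx y hy hab]
          · rw [← hF y hy] at hab
            rw [h.inj hab]
        · rw [hF x hx] at hab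
          rw [h'.inj hab]
  let J : E × E → E := fun p =>
    if p.1 ∈ elts s t f ∧ p.2 ∈ elts s t f then tab G s t f p else tab G s t f' p
  have hJ1 : ∀ q ∈ A ++ (V' ++ C), tab G s t f (B.var q) = J (B.var q) := by
    intro q hq
    have h1 := hP _ _ hAC q hq
    exact (if_pos ⟨h.gen_elts h1.1, h.gen_elts h1.2⟩).symm
  have hJ2 : ∀ q ∈ V, tab G s t f' (B.var q) = J (B.var q) := by
    intro q hq
    have h1 := hP _ _ hV' q (by simp [hq])
    have e1 := h'.gen_elts h1.1
    have e2 := h'.gen_elts h1.2
    by_cases h2 : (B.var q).1 ∈ elts s t f ∧ (B.var q).2 ∈ elts s t f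
    · have h3 : J (B.var q) = tab G s t f (B.var q) := if_pos h2
      rw [h3]
      by_cases h4 : ∃ u, B.var q = ent G s f' u
      · -- the entry belongs to the same node for both labellings
        obtain ⟨u, h5⟩ := h4
        have h6 : ∀ b : Option N, lab s f' b ∈ elts s t f → lab s f b = lab s f' b := by
          intro b hb
          rcases hb with hb | ⟨a, ha⟩
          · exact absurd hb (h'.lab_ne hst b)
          · obtain rfl := hcom a b ha.symm
            exact ha.symm
        rw [h5] at h2
        have h7 : ent G s f u = ent G s f' u :=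
          Prod.ext (h6 _ h2.1) (h6 _ h2.2)
        rw [h5, h'.tab_ent, ← h7, h.tab_ent]
        rcases u with _ | c
        · rfl
        · change f' c = f c
          have h8 : c ∉ F := fun h9 => hun c h9 q hq h5
          exact (hF c h8).symm
      · rw [tab_of_not h4]
        by_cases h5 : ∃ u, B.var q = ent G s f u
        · exfalso
          obtain ⟨u, h6⟩ := h5
          refine h4 ⟨u, ?_⟩
          have h7 : ∀ a : Option N, lab s f a ∈ elts s t f' → lab s f a = lab s f' a := by
            intro a ha
            rcases ha with ha | ⟨b, hb⟩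
            · exact absurd ha (h.lab_ne hst a)
            · have := hcom a b hb
              rw [← this] at hb
              exact hb
          rw [h6] at e1 e2
          rw [h6]
          exact Prod.ext (h7 _ e1) (h7 _ e2)
        · rw [tab_of_not h5]
    · exact (if_neg h2).symm
  have hpath : B.Path J B.start (A ++ (V ++ C)) () := by
    refine NBP.path_append.2 ⟨s₁, NBP.walk_congr hA fun q hq => hJ1 q (by simp [hq]),
      NBP.path_append.2 ⟨s₂, NBP.walk_congr hV hJ2,
        NBP.path_congr hC fun q hq => hJ1 q (by simp [hq])⟩⟩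
  have hJcl : ∀ z, Gen J s z → z ∈ elts s t f := by
    intro z hz
    refine gen_mem _ (Or.inr ⟨none, rfl⟩) ?_ hz
    intro x hx y hy
    have : J (x, y) = tab G s t f (x, y) := if_pos ⟨hx, hy⟩
    rw [this]
    exact tab_mem h _
  obtain ⟨q, hq, hqu⟩ := hu
  have h1 := hP _ _ hpath q (by simp [hq])
  rw [hqu] at h1
  have h2 : f' c ∈ elts s t f := by
    rcases hc with hc | hc
    · have := hJcl _ h1.1
      unfold ent at this
      rw [hc] at this
      exact this
    · have := hJcl _ h1.2
      unfold ent at this
      rw [hc] at this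
      exact this
  rcases h2 with h2 | ⟨a, h2⟩
  · exact absurd h2 (h'.ne_t c)
  · have h3 := hcom a (some c) h2.symm
    rw [h3] at h2
    exact h2.symm

end

/-- Incremental programs are proper. -/
theorem Incremental.proper {E : Type} {B : NBP (E × E) E Unit} {s : E} (h : Incremental B s) :
    Proper B s := by
  intro op l hl
  have key : ∀ n, ∀ l₁ l₂ : List B.Q, ∀ q : B.Q, l = l₁ ++ q :: l₂ → l₁.length = n →
      Gen op s (B.var q).1 ∧ Gen op s (B.var q).2 := by
    intro n
    induction n using Nat.strong_induction_on with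
    | _ n ih =>
      intro l₁ l₂ q he hn
      have h1 := h op l₁ l₂ q (he ▸ hl)
      have h2 : ∀ x, x = s ∨ (∃ q' ∈ l₁, op (B.var q') = x) → Gen op s x := by
        rintro x (rfl | ⟨q', hq', rfl⟩)
        · exact Gen.base
        · obtain ⟨l₃, l₄, h3⟩ := List.append_of_mem hq'
          have h4 := ih l₃.length (by rw [← hn, h3]; simp) l₃ (l₄ ++ q :: l₂) q'
            (by rw [he, h3]; simp) rfl
          exact Gen.mul h4.1 h4.2
      exact ⟨h2 _ (h1 _ (Or.inl rfl)), h2 _ (h1 _ (Or.inr rfl))⟩
  intro q hq
  obtain ⟨l₁, l₂, h1⟩ := List.append_of_mem hq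
  exact key _ l₁ l₂ q h1 rfl

/-- Loops of computations can be removed. -/
theorem exists_nodup {X V R : Type} {B : NBP X V R} {I : X → V} {st : B.Q ⊕ R} {l : List B.Q}
    {z : R} (h : B.Path I st l z) : ∃ l', l'.Nodup ∧ B.Path I st l' z := by
  classical
  induction l generalizing st with
  | nil => exact ⟨[], List.nodup_nil, h⟩
  | cons q l ih =>
    obtain ⟨rfl, st', h1, h2⟩ := NBP.path_cons.1 h
    obtain ⟨l', h3, h4⟩ := ih h2
    by_cases hq : q ∈ l'
    · obtain ⟨a, b, rfl⟩ := List.append_of_mem hq
      obtain ⟨st₂, h5, h6⟩ := NBP.path_append.1 h4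
      refine ⟨q :: b, (List.nodup_append.1 h3).2.1, ?_⟩
      have h7 := (NBP.path_cons.1 h6).1
      rw [h7] at h6
      exact h6
    · exact ⟨q :: l', List.nodup_cons.2 ⟨hq, h3⟩, NBP.path_cons.2 ⟨rfl, st', h1, h4⟩⟩

end Pool.Agent.GenBP
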